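import Mathlib

/-!
# A temperate frame that is not spatial

We adjoin a new top element to a nontrivial frame without points (the complete Boolean algebra of
regular open subsets of the real line).
-/

set_option autoImplicit false

open Set TopologicalSpace

namespace Pool.Agent.Results.MP_f10132_gt.NonSpatialTemperate

universe u v

section Defs

variable {L : Type u} [Order.Frame L]

/-- A filter on `L`: a nonempty upwards-closed subset in which any two elements have a lower
bound. -/
structure IsFrameFilter (F : Set L) : Prop where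
  nonempty : F.Nonempty
  upper : ∀ a ∈ F, ∀ b, a ≤ b → b ∈ F
  lower : ∀ a ∈ F, ∀ b ∈ F, ∃ c ∈ F, c ≤ a ∧ c ≤ b

/-- A subset `U` of `L` is Scott-open: it is upwards-closed, and each (nonempty) directed subset
whose supremum lies in `U` meets `U`. -/
structure IsScottOpen (U : Set L) : Prop where
  upper : ∀ a ∈ U, ∀ b, a ≤ b → b ∈ U
  inacc : ∀ D : Set L, D.Nonempty → (∀ a ∈ D, ∀ b ∈ D, ∃ c ∈ D, a ≤ c ∧ b ≤ c) →
    sSup D ∈ U → ∃ d ∈ D, d ∈ U

/-- The join `F ∨ G = {u ⊓ v : u ∈ F, v ∈ G}` of two filters. -/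
def filterJoin (F G : Set L) : Set L := {w | ∃ a ∈ F, ∃ b ∈ G, w = a ⊓ b}

end Defs

/-- `L` is locally temperate: the join of two Scott-open filters is Scott-open. -/
def LocallyTemperate (L : Type u) [Order.Frame L] : Prop :=
  ∀ F G : Set L, IsFrameFilter F → IsScottOpen F → IsFrameFilter G → IsScottOpen G →
    IsScottOpen (filterJoin F G)

/-- `L` is temperate: it is locally temperate and the filter `{⊤}` is Scott-open. -/
def Temperate (L : Type u) [Order.Frame L] : Prop :=
  LocallyTemperate L ∧ IsScottOpen ({⊤} : Set L)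

/-- `L` is spatial: it is isomorphic to the frame of open sets of a topological space (in the
universe `v`). -/
def Spatial (L : Type u) [Order.Frame L] : Prop :=
  ∃ (X : Type v) (_ : TopologicalSpace X), Nonempty (L ≃o Opens X)

/-! ### Frames without prime elements -/

section Prime

variable {B : Type u} [Order.Frame B]

/-- `B` has no prime elements (equivalently, no points). -/
def NoPrimes (B : Type u) [Order.Frame B] : Prop :=
  ∀ p : B, p ≠ ⊤ → ∃ a b : B, a ⊓ b ≤ p ∧ ¬ a ≤ p ∧ ¬ b ≤ p

/-- In a frame without prime elements each Scott-open filter contains the bottom element. -/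
theorem bot_mem_of_noPrimes (hB : NoPrimes B) {F : Set B} (hF : IsFrameFilter F)
    (hS : IsScottOpen F) : (⊥ : B) ∈ F := by
  by_contra hbot
  have hz : ∃ m, (⊥ : B) ≤ m ∧ Maximal (fun x => x ∈ Fᶜ) m := by
    refine zorn_le_nonempty₀ Fᶜ ?_ ⊥ hbot
    intro c hc hchain y hy
    refine ⟨sSup c, ?_, fun z hz => le_sSup hz⟩
    intro hmem
    obtain ⟨d, hd, hdF⟩ := hS.inacc c ⟨y, hy⟩ (by
      intro a ha b hb
      rcases hchain.total ha hb with h | h
      · exact ⟨b, hb, h, le_rfl⟩
      · exact ⟨a, ha, le_rfl, h⟩) hmem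
    exact hc hd hdF
  obtain ⟨p, -, hp⟩ := hz
  obtain ⟨x, hx⟩ := hF.nonempty
  have hptop : p ≠ ⊤ := by
    rintro rfl
    exact hp.prop (hF.upper x hx ⊤ le_top)
  obtain ⟨a, b, hab, ha, hb⟩ := hB p hptop
  have key : ∀ c : B, ¬ c ≤ p → p ⊔ c ∈ F := by
    intro c hc
    by_contra hcF
    have := hp.le_of_ge (y := p ⊔ c) hcF le_sup_left
    exact hc (le_sup_right.trans this)
  obtain ⟨w, hw, hwa, hwb⟩ := hF.lower _ (key a ha) _ (key b hb)
  have hwp : w ≤ p := by
    calc w ≤ (p ⊔ a) ⊓ (p ⊔ b) := le_inf hwa hwb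
      _ = p ⊔ a ⊓ b := (sup_inf_left _ _ _).symm
      _ ≤ p := sup_le le_rfl hab
  exact hp.prop (hF.upper w hw p hwp)

end Prime

/-! ### Adjoining a top element -/

section WithTopFrame

variable {B : Type u} [Order.Frame B]

theorem coe_sSup_withTop {D : Set B} (hD : D.Nonempty) :
    ((sSup D : B) : WithTop B) = sSup ((fun b : B => (b : WithTop B)) '' D) := by
  apply le_antisymm
  · obtain ⟨d, hd⟩ := hD
    rcases h : sSup ((fun b : B => (b : WithTop B)) '' D) with _ | s
    · exact le_top
    · change ((sSup D : B) : WithTop B) ≤ (s : WithTop B)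
      rw [WithTop.coe_le_coe]
      apply sSup_le
      intro b hb
      have : (b : WithTop B) ≤ sSup ((fun b : B => (b : WithTop B)) '' D) :=
        le_sSup ⟨b, hb, rfl⟩
      rw [h] at this
      exact WithTop.coe_le_coe.1 this
  · apply sSup_le
    rintro _ ⟨b, hb, rfl⟩
    exact WithTop.coe_le_coe.2 (le_sSup hb)

/-- The frame distributive law for `WithTop B`. -/
theorem withTop_inf_sSup_le (a : WithTop B) (s : Set (WithTop B)) :
    a ⊓ sSup s ≤ ⨆ b ∈ s, a ⊓ b := by
  by_cases htop : (⊤ : WithTop B) ∈ s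
  · have : a ⊓ ⊤ ≤ ⨆ b ∈ s, a ⊓ b := le_iSup₂_of_le ⊤ htop le_rfl
    exact (inf_le_inf_left a le_top).trans this
  · rcases a with _ | a
    · change (⊤ : WithTop B) ⊓ sSup s ≤ ⨆ b ∈ s, (⊤ : WithTop B) ⊓ b
      rw [top_inf_eq]
      apply sSup_le
      intro b hb
      exact le_iSup₂_of_le b hb (by rw [top_inf_eq])
    · rcases s.eq_empty_or_nonempty with rfl | hs
      · rw [sSup_empty]
        exact inf_le_right.trans bot_le
      · -- `s` is the image of a nonempty subset `D` of `B`
        set D : Set B := {b | (b : WithTop B) ∈ s} with hDdef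
        have hsD : s = (fun b : B => (b : WithTop B)) '' D := by
          ext x
          constructor
          · intro hx
            rcases x with _ | x
            · exact absurd hx htop
            · exact ⟨x, hx, rfl⟩
          · rintro ⟨b, hb, rfl⟩
            exact hb
        have hD : D.Nonempty := by
          obtain ⟨x, hx⟩ := hs
          rw [hsD] at hx
          obtain ⟨b, hb, -⟩ := hx
          exact ⟨b, hb⟩
        have h1 : sSup s = ((sSup D : B) : WithTop B) := by
          rw [coe_sSup_withTop hD, ← hsD]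
        change (a : WithTop B) ⊓ sSup s ≤ ⨆ b ∈ s, (a : WithTop B) ⊓ b
        rw [h1, ← WithTop.coe_inf, inf_sSup_eq]
        have h2 : ((⨆ b ∈ D, a ⊓ b : B) : WithTop B) ≤ ⨆ b ∈ s, (a : WithTop B) ⊓ b := by
          rw [← sSup_image, coe_sSup_withTop (hD.image _)]
          apply sSup_le
          rintro _ ⟨_, ⟨b, hb, rfl⟩, rfl⟩
          refine le_iSup₂_of_le (b : WithTop B) hb ?_
          simp
        exact h2

/-- `WithTop B` is a frame. -/
noncomputable instance withTopFrame (B : Type u) [Order.Frame B] : Order.Frame (WithTop B) :=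
  Order.Frame.ofMinimalAxioms ⟨withTop_inf_sSup_le⟩

/-- The Scott-open filters on `WithTop B`, for `B` without prime elements, are `{⊤}` and the
improper filter. -/
theorem scottOpen_withTop (hB : NoPrimes B) (F : Set (WithTop B))
    (hF : IsFrameFilter F) (hS : IsScottOpen F) : F = {⊤} ∨ F = univ := by
  by_cases h : ∃ b : B, (b : WithTop B) ∈ F
  · right
    obtain ⟨b₀, hb₀⟩ := h
    set G : Set B := {b | (b : WithTop B) ∈ F} with hG
    have hGF : IsFrameFilter G := by
      refine ⟨⟨b₀, hb₀⟩, ?_, ?_⟩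
      · intro a ha b hab
        exact hF.upper _ ha _ (WithTop.coe_le_coe.2 hab)
      · intro a ha b hb
        obtain ⟨c, hc, hca, hcb⟩ := hF.lower _ ha _ hb
        rcases c with _ | c
        · exact absurd hca (WithTop.not_top_le_coe a)
        · exact ⟨c, hc, WithTop.coe_le_coe.1 hca, WithTop.coe_le_coe.1 hcb⟩
    have hGS : IsScottOpen G := by
      refine ⟨hGF.upper, ?_⟩
      intro D hD hdir hsup
      have hsup' : sSup ((fun b : B => (b : WithTop B)) '' D) ∈ F := by
        rw [← coe_sSup_withTop hD]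
        exact hsup
      obtain ⟨_, ⟨d, hd, rfl⟩, hdF⟩ := hS.inacc _ (hD.image _) (by
        rintro _ ⟨a, ha, rfl⟩ _ ⟨b, hb, rfl⟩
        obtain ⟨c, hc, hac, hbc⟩ := hdir a ha b hb
        exact ⟨_, ⟨c, hc, rfl⟩, WithTop.coe_le_coe.2 hac, WithTop.coe_le_coe.2 hbc⟩) hsup'
      exact ⟨d, hd, hdF⟩
    have hbot := bot_mem_of_noPrimes hB hGF hGS
    ext x
    simp only [mem_univ, iff_true]
    rcases x with _ | x
    · exact hF.upper _ hbot _ le_top
    · exact hF.upper _ hbot _ (WithTop.coe_le_coe.2 bot_le)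
  · left
    ext x
    rcases x with _ | x
    · simp only [WithTop.none_eq_top, mem_singleton_iff, iff_true]
      obtain ⟨y, hy⟩ := hF.nonempty
      exact hF.upper y hy _ le_top
    · constructor
      · intro hx
        exact absurd ⟨x, hx⟩ h
      · intro hx
        exact absurd hx (WithTop.coe_ne_top)

theorem scottOpen_singleton_top :
    IsScottOpen ({⊤} : Set (WithTop B)) := by
  refine ⟨?_, ?_⟩
  · rintro a rfl b hb
    exact top_le_iff.1 hb
  · intro D hD hdir hsup
    by_contra hcon
    push Not at hcon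
    set E : Set B := {b | (b : WithTop B) ∈ D} with hE
    have hDE : D = (fun b : B => (b : WithTop B)) '' E := by
      ext x
      constructor
      · intro hx
        rcases x with _ | x
        · exact absurd rfl (hcon _ hx)
        · exact ⟨x, hx, rfl⟩
      · rintro ⟨b, hb, rfl⟩
        exact hb
    have hEne : E.Nonempty := by
      obtain ⟨x, hx⟩ := hD
      rw [hDE] at hx
      obtain ⟨b, hb, -⟩ := hx
      exact ⟨b, hb⟩
    have hsup' : sSup D = ⊤ := hsup
    rw [hDE, ← coe_sSup_withTop hEne] at hsup'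
    exact WithTop.coe_ne_top hsup'

theorem scottOpen_univ {L : Type u} [Order.Frame L] : IsScottOpen (univ : Set L) :=
  ⟨fun _ _ _ _ => mem_univ _, fun _ hD _ _ => hD.imp fun _ hd => ⟨hd, mem_univ _⟩⟩

theorem temperate_withTop (hB : NoPrimes B) :
    Temperate (WithTop B) := by
  refine ⟨?_, scottOpen_singleton_top⟩
  intro F G hF hFS hG hGS
  have h1 := scottOpen_withTop hB F hF hFS
  have h2 := scottOpen_withTop hB G hG hGS
  by_cases hcase : F = {⊤} ∧ G = {⊤}
  · obtain ⟨rfl, rfl⟩ := hcase
    have : filterJoin ({⊤} : Set (WithTop B)) {⊤} = {⊤} := by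
      ext x
      constructor
      · rintro ⟨a, rfl, b, rfl, rfl⟩
        exact top_inf_eq _
      · rintro rfl
        exact ⟨⊤, rfl, ⊤, rfl, (top_inf_eq _).symm⟩
    rw [this]
    exact scottOpen_singleton_top
  · have : filterJoin F G = univ := by
      ext x
      simp only [mem_univ, iff_true]
      rcases h1 with rfl | rfl
      · rcases h2 with rfl | rfl
        · exact absurd ⟨rfl, rfl⟩ hcase
        · exact ⟨⊤, rfl, x, mem_univ _, (top_inf_eq _).symm⟩
      · obtain ⟨y, hy⟩ := hG.nonempty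
        exact ⟨x, mem_univ _, ⊤, hG.upper y hy _ le_top, (inf_top_eq _).symm⟩
    rw [this]
    exact scottOpen_univ

/-- `WithTop B` is not spatial when `B` is nontrivial and has no prime elements. -/
theorem not_spatial_withTop [Nontrivial B] (hB : NoPrimes B) :
    ¬ Spatial.{u, v} (WithTop B) := by
  rintro ⟨X, _, ⟨e⟩⟩
  -- no point of `X` belongs to the open set of an element of `B`
  have hpt : ∀ (x : X) (b : B), x ∉ e (b : WithTop B) := by
    intro x b₀ hb₀
    -- the supremum of the elements of `B` whose open set misses `x` is prime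
    set p : B := sSup {b : B | x ∉ e (b : WithTop B)} with hp
    have hxbot : x ∉ e (((⊥ : B)) : WithTop B) := by
      have : (((⊥ : B)) : WithTop B) = ⊥ := rfl
      rw [this, map_bot]
      exact fun h => h
    have hne : ({b : B | x ∉ e (b : WithTop B)}).Nonempty := ⟨⊥, hxbot⟩
    have hxp : x ∉ e (p : WithTop B) := by
      rw [hp, coe_sSup_withTop hne, map_sSup]
      intro h
      rw [sSup_image, Opens.mem_iSup] at h
      obtain ⟨w, h⟩ := h
      rw [Opens.mem_iSup] at h
      obtain ⟨⟨b, hb, rfl⟩, h⟩ := h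
      exact hb h
    have hle : ∀ b : B, b ≤ p ↔ x ∉ e (b : WithTop B) := by
      intro b
      constructor
      · intro hbp hxb
        exact hxp (e.monotone (WithTop.coe_le_coe.2 hbp) hxb)
      · intro hxb
        exact le_sSup hxb
    have hptop : p ≠ ⊤ := by
      intro h
      exact (hle b₀).1 (h ▸ le_top) hb₀
    obtain ⟨a, b, hab, ha, hb⟩ := hB p hptop
    rw [hle] at hab ha hb
    rw [not_not] at ha hb
    apply hab
    rw [WithTop.coe_inf, map_inf]
    exact ⟨ha, hb⟩
  obtain ⟨a, b, hab⟩ := exists_pair_ne B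
  apply hab
  have : e (a : WithTop B) = e (b : WithTop B) := by
    ext x
    exact ⟨fun h => absurd h (hpt x a), fun h => absurd h (hpt x b)⟩
  exact WithTop.coe_injective (e.injective this)

end WithTopFrame

/-! ### Regular open sets of the real line -/

/-- The double negation nucleus on the open sets of `ℝ`. -/
noncomputable def dn : Nucleus (Opens ℝ) where
  toFun U := Uᶜᶜ
  map_inf' U V := compl_compl_inf_distrib U V
  idempotent' U := by simp
  le_apply' U := le_compl_compl

theorem mem_range_dn {U : Opens ℝ} : U ∈ Set.range dn ↔ Uᶜᶜ = U := by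
  rw [Nucleus.mem_range]
  rfl

theorem noPrimes_range_dn : NoPrimes (Set.range dn) := by
  rintro ⟨p, hp⟩ hptop
  have hreg : pᶜᶜ = p := mem_range_dn.1 hp
  have hq : pᶜ ≠ ⊥ := by
    intro h
    apply hptop
    rw [← top_le_iff]
    have hp' : p = ⊤ := by rw [← hreg, h, compl_bot]
    change ((⊤ : Set.range dn) : Opens ℝ) ≤ p
    rw [hp']
    exact le_top
  -- pick two distinct points of the complement
  have hq' : ((pᶜ : Opens ℝ) : Set ℝ).Nonempty := by
    rw [Set.nonempty_iff_ne_empty]
    intro h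
    exact hq (Opens.ext h)
  obtain ⟨x, hx⟩ := hq'
  obtain ⟨ε, hε, hball⟩ := Metric.isOpen_iff.1 (pᶜ : Opens ℝ).isOpen x hx
  set u : Opens ℝ := ⟨Ioo (x - ε) x, isOpen_Ioo⟩ with hu
  set v : Opens ℝ := ⟨Ioo x (x + ε), isOpen_Ioo⟩ with hv
  have hup : u ≤ pᶜ := by
    intro y hy
    apply hball
    rw [Metric.mem_ball, Real.dist_eq, abs_lt]
    have h1 : x - ε < y := hy.1
    have h2 : y < x := hy.2
    constructor <;> linarith
  have hvp : v ≤ pᶜ := by
    intro y hy
    apply hball
    rw [Metric.mem_ball, Real.dist_eq, abs_lt]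
    have h1 : x < y := hy.1
    have h2 : y < x + ε := hy.2
    constructor <;> linarith
  have huv : u ⊓ v = ⊥ := by
    apply Opens.ext
    ext y
    constructor
    · rintro ⟨h1, h2⟩
      exact absurd (lt_trans h1.2 h2.1) (lt_irrefl _)
    · intro h
      exact absurd h (Set.notMem_empty y)
  have hune : u ≠ ⊥ := by
    intro h
    have : x - ε / 2 ∈ u := by
      constructor <;> linarith
    rw [h] at this
    exact this
  have hvne : v ≠ ⊥ := by
    intro h
    have : x + ε / 2 ∈ v := by
      constructor <;> linarith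
    rw [h] at this
    exact this
  have key : ∀ w : Opens ℝ, w ≤ pᶜ → w ≠ ⊥ → ¬ wᶜᶜ ≤ p := by
    intro w hw hne h
    apply hne
    have h1 : w ≤ p := le_compl_compl.trans h
    have h2 : w ≤ p ⊓ pᶜ := le_inf h1 hw
    rw [inf_compl_self] at h2
    exact le_bot_iff.1 h2
  refine ⟨⟨dn u, ⟨u, rfl⟩⟩, ⟨dn v, ⟨v, rfl⟩⟩, ?_, key u hup hune, key v hvp hvne⟩
  set c : Set.range dn := ⟨dn u, ⟨u, rfl⟩⟩ ⊓ ⟨dn v, ⟨v, rfl⟩⟩ with hc
  have h1 : (c : Opens ℝ) ≤ dn u := (inf_le_left : c ≤ ⟨dn u, ⟨u, rfl⟩⟩)
  have h2 : (c : Opens ℝ) ≤ dn v := (inf_le_right : c ≤ ⟨dn v, ⟨v, rfl⟩⟩)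
  have h3 : (c : Opens ℝ) ≤ uᶜᶜ ⊓ vᶜᶜ := le_inf h1 h2
  rw [← compl_compl_inf_distrib, huv, compl_bot, compl_top] at h3
  change (c : Opens ℝ) ≤ p
  exact h3.trans bot_le

instance : Nontrivial (Set.range dn) := by
  refine ⟨⟨dn ⊥, ⟨⊥, rfl⟩⟩, ⟨dn ⊤, ⟨⊤, rfl⟩⟩, ?_⟩
  intro h
  have h' : dn (⊥ : Opens ℝ) = dn ⊤ := congrArg Subtype.val h
  have h1 : dn (⊥ : Opens ℝ) = (⊥ : Opens ℝ)ᶜᶜ := rfl
  have h2 : dn (⊤ : Opens ℝ) = (⊤ : Opens ℝ)ᶜᶜ := rfl
  rw [h1, h2, compl_bot, compl_top, compl_bot] at h'
  exact bot_ne_top h'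

/-- There is a temperate frame that is not spatial. -/
theorem result : ∃ (L : Type) (_ : Order.Frame L), Temperate L ∧ ¬ Spatial.{0, v} L := by
  refine ⟨WithTop (Set.range dn), withTopFrame _, ?_, ?_⟩
  · exact temperate_withTop noPrimes_range_dn
  · exact not_spatial_withTop noPrimes_range_dn

end Pool.Agent.Results.MP_f10132_gt.NonSpatialTemperate
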